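import Pool.Agent.Helper63.TH.Goals

/-! # MP_705522_gt, thresholds: packet CONT (helper79) -/

set_option autoImplicit false

namespace Pool.Agent.Helper79.TH

open MeasureTheory Set Filter Topology
open Pool.Agent.Helper53.PT Pool.Agent.Helper63.TH

lemma pow_sub_pow_bd (a b : ℝ) (ha : |a| ≤ 1) (hb : |b| ≤ 1) (n : ℕ) :
    |a ^ n - b ^ n| ≤ n * |a - b| := by
  induction n with
  | zero => simp
  | succ k ih =>
    have e : a ^ (k + 1) - b ^ (k + 1) = a * (a ^ k - b ^ k) + (a - b) * b ^ k := by ring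
    rw [e]
    have h1 : |a * (a ^ k - b ^ k)| ≤ k * |a - b| := by
      rw [abs_mul]
      calc |a| * |a ^ k - b ^ k| ≤ 1 * (k * |a - b|) :=
            mul_le_mul ha ih (abs_nonneg _) (by norm_num)
        _ = k * |a - b| := one_mul _
    have h2 : |(a - b) * b ^ k| ≤ |a - b| := by
      rw [abs_mul, abs_pow]
      calc |a - b| * |b| ^ k ≤ |a - b| * 1 :=
            mul_le_mul_of_nonneg_left (pow_le_one₀ (abs_nonneg _) hb) (abs_nonneg _)
        _ = |a - b| := mul_one _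
    have h3 := abs_add_le (a * (a ^ k - b ^ k)) ((a - b) * b ^ k)
    push_cast
    linarith

/-- the dominating function -/
noncomputable def hh (x : ℝ) : ℝ := if x ≤ 1 then √x else 1 / (x * √x)

lemma hh_int : IntegrableOn hh (Ioi 0) := by
  have h1 : IntegrableOn hh (Ioc 0 1) := by
    have h2 : IntegrableOn (fun x : ℝ => √x) (Ioc 0 1) :=
      (Real.continuous_sqrt.continuousOn.integrableOn_Icc (a := 0) (b := 1)).mono_set
        Ioc_subset_Icc_self
    refine h2.congr_fun (fun x hx => ?_) measurableSet_Ioc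
    unfold hh
    rw [if_pos hx.2]
  have h3 : IntegrableOn hh (Ioi 1) := by
    have h4 : IntegrableOn (fun x : ℝ => x ^ (-(3 / 2) : ℝ)) (Ioi 1) :=
      integrableOn_Ioi_rpow_of_lt (by norm_num) one_pos
    refine h4.congr_fun (fun x hx => ?_) measurableSet_Ioi
    have hx1 : (1 : ℝ) < x := hx
    have hx0 : (0 : ℝ) < x := by linarith
    unfold hh
    rw [if_neg (not_le.mpr hx1)]
    have e : x * √x = x ^ (3 / 2 : ℝ) := by
      rw [Real.sqrt_eq_rpow, ← Real.rpow_one_add' hx0.le (by norm_num)]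
      norm_num
    show x ^ (-(3 / 2) : ℝ) = 1 / (x * √x)
    rw [e, Real.rpow_neg hx0.le, one_div]
  have h5 : Ioi (0 : ℝ) = Ioc 0 1 ∪ Ioi 1 := (Ioc_union_Ioi_eq_Ioi zero_le_one).symm
  rw [h5]
  exact h1.union h3

lemma est (hFI : GFI) (hDIF : GDIF) (n : ℕ) (hn : 1 ≤ n) {θ θ' : ℝ} (h0 : 1 / 4 ≤ θ)
    (h : θ ≤ θ') (h1 : θ' < 1 / 2) :
    |V θ' n - V θ n| ≤ 1 / (2 * √(n : ℝ)) * (n * ((mo θ' 2 - mo θ 2) / 24 + 16 * (θ' - θ)) *
      ∫ x in Ioi (0 : ℝ), hh x) := by
  obtain ⟨hi, he⟩ := (hDIF θ h0 (by linarith) n hn).1 θ' (by linarith) h1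
  rw [he, abs_mul, abs_of_nonneg (by positivity)]
  apply mul_le_mul_of_nonneg_left _ (by positivity)
  have hD2 : 0 ≤ mo θ' 2 - mo θ 2 := by
    have := mo_mono (by linarith : 0 < θ) h h1.le 2
    linarith
  have hcm : n * ((mo θ' 2 - mo θ 2) / 24 + 16 * (θ' - θ)) * ∫ x in Ioi (0 : ℝ), hh x =
      ∫ x in Ioi (0 : ℝ), n * ((mo θ' 2 - mo θ 2) / 24 + 16 * (θ' - θ)) * hh x :=
    (integral_const_mul _ _).symm
  rw [hcm, ← Real.norm_eq_abs]
  refine norm_integral_le_of_norm_le (μ := volume.restrict (Ioi (0 : ℝ)))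
    (f := fun x => (f0 θ x ^ n - f0 θ' x ^ n) / (x * √x)) (hh_int.const_mul _) ?_
  refine (ae_restrict_mem measurableSet_Ioi).mono fun x hx => ?_
  have hx0 : (0 : ℝ) < x := hx
  have hs : 0 < √x := Real.sqrt_pos.mpr hx0
  have ha := (aBD (by linarith : 0 < θ) (by linarith : θ < 1 / 2) hx0.le).1
  have hb := (aBD (by linarith : 0 < θ') h1 hx0.le).1
  have hpw := pow_sub_pow_bd (f0 θ x) (f0 θ' x) ha hb n
  have hc : |f0 θ x - f0 θ' x| = |f0 θ' x - f0 θ x| := abs_sub_comm _ _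
  rw [hc] at hpw
  rw [Real.norm_eq_abs, abs_div, abs_of_pos (mul_pos hx0 hs)]
  rw [div_le_iff₀ (mul_pos hx0 hs)]
  refine hpw.trans ?_
  have hn0 : (0 : ℝ) ≤ n := Nat.cast_nonneg n
  have hΔ : 0 ≤ θ' - θ := by linarith
  have hgoal : |f0 θ' x - f0 θ x| ≤ ((mo θ' 2 - mo θ 2) / 24 + 16 * (θ' - θ)) * hh x * (x * √x) := by
    unfold hh
    split_ifs with hx1
    · have hl := (aLIP (by linarith : 0 < θ) h h1 hx0.le).1
      have e : √x * (x * √x) = x ^ 2 := by
        have := Real.mul_self_sqrt hx0.le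
        calc √x * (x * √x) = x * (√x * √x) := by ring
          _ = x ^ 2 := by rw [this]; ring
      rw [mul_assoc, e]
      have : 0 ≤ 16 * (θ' - θ) * x ^ 2 := by positivity
      nlinarith
    · have hl := (hFI θ θ' h0 h h1 x hx0).1
      have e : 1 / (x * √x) * (x * √x) = 1 := by field_simp
      rw [mul_assoc, e, mul_one]
      linarith [div_nonneg hD2 (by norm_num : (0 : ℝ) ≤ 24)]
  calc (n : ℝ) * |f0 θ' x - f0 θ x|
      ≤ n * (((mo θ' 2 - mo θ 2) / 24 + 16 * (θ' - θ)) * hh x * (x * √x)) :=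
        mul_le_mul_of_nonneg_left hgoal hn0
    _ = _ := by ring

lemma mo_cont {θ : ℝ} (h0 : 0 < θ) (h1 : θ < 1) : ContinuousAt (fun θ => mo θ 2) θ := by
  unfold mo
  have g1 : ContinuousAt (fun θ : ℝ => Real.Gamma (1 + (2 * ((2 : ℕ) : ℝ) - 1) * θ)) θ := by
    apply ContinuousAt.comp (g := Real.Gamma)
      (f := fun θ : ℝ => 1 + (2 * ((2 : ℕ) : ℝ) - 1) * θ)
    · apply (Real.differentiableAt_Gamma _).continuousAt
      intro m hm
      have : (0 : ℝ) ≤ m := Nat.cast_nonneg m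
      push_cast at hm
      nlinarith
    · fun_prop
  have g2 : ContinuousAt (fun θ : ℝ => Real.Gamma (1 - θ)) θ := by
    apply ContinuousAt.comp (g := Real.Gamma) (f := fun θ : ℝ => 1 - θ)
    · apply (Real.differentiableAt_Gamma _).continuousAt
      intro m hm
      have : (0 : ℝ) ≤ m := Nat.cast_nonneg m
      linarith
    · fun_prop
  have g3 : ContinuousAt (fun θ : ℝ => Real.Gamma (1 + θ)) θ := by
    apply ContinuousAt.comp (g := Real.Gamma) (f := fun θ : ℝ => 1 + θ)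
    · apply (Real.differentiableAt_Gamma _).continuousAt
      intro m hm
      have : (0 : ℝ) ≤ m := Nat.cast_nonneg m
      linarith
    · fun_prop
  have p2 : Real.Gamma (1 - θ) ≠ 0 := (Real.Gamma_pos_of_pos (by linarith)).ne'
  have p3 : Real.Gamma (1 + θ) ≠ 0 := (Real.Gamma_pos_of_pos (by linarith)).ne'
  exact (g1.div g2 p2).mul ((g2.div g3 p3).pow 2)

theorem gCONT : GCONT := by
  intro hFI hDIF n hn θ0 hθ0
  have h4 : (1 : ℝ) / 4 ≤ θ0 := hθ0.1
  have hhalf : θ0 < 1 / 2 := hθ0.2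
  have hb : ∀ θ ∈ Ico (1 / 4 : ℝ) (1 / 2), |V θ n - V θ0 n| ≤ 1 / (2 * √(n : ℝ)) *
      (n * (|mo θ 2 - mo θ0 2| / 24 + 16 * |θ - θ0|) * ∫ x in Ioi (0 : ℝ), hh x) := by
    intro θ hθ
    rcases le_total θ θ0 with h | h
    · have := est hFI hDIF n hn hθ.1 h hhalf
      have hm := mo_mono (by linarith [hθ.1] : 0 < θ) h hhalf.le 2
      rw [abs_sub_comm (V θ n), abs_sub_comm (mo θ 2), abs_sub_comm θ θ0,
        abs_of_nonneg (by linarith : 0 ≤ mo θ0 2 - mo θ 2),
        abs_of_nonneg (by linarith : 0 ≤ θ0 - θ)]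
      exact this
    · have := est hFI hDIF n hn h4 h hθ.2
      have hm := mo_mono (by linarith : 0 < θ0) h hθ.2.le 2
      rw [abs_of_nonneg (by linarith : 0 ≤ mo θ 2 - mo θ0 2),
        abs_of_nonneg (by linarith : 0 ≤ θ - θ0)]
      exact this
  have hcm : ContinuousAt (fun θ => mo θ 2) θ0 := mo_cont (by linarith) (by linarith)
  have hlim : Tendsto (fun θ : ℝ => 1 / (2 * √(n : ℝ)) *
      (n * (|mo θ 2 - mo θ0 2| / 24 + 16 * |θ - θ0|) * ∫ x in Ioi (0 : ℝ), hh x))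
      (𝓝[Ico (1 / 4) (1 / 2)] θ0) (𝓝 0) := by
    have hc : ContinuousAt (fun θ : ℝ => 1 / (2 * √(n : ℝ)) *
      (n * (|mo θ 2 - mo θ0 2| / 24 + 16 * |θ - θ0|) * ∫ x in Ioi (0 : ℝ), hh x)) θ0 := by
      have c1 : ContinuousAt (fun θ : ℝ => |mo θ 2 - mo θ0 2|) θ0 :=
        (hcm.sub continuousAt_const).abs
      have c2 : ContinuousAt (fun θ : ℝ => |θ - θ0|) θ0 :=
        (continuousAt_id.sub continuousAt_const).abs
      exact continuousAt_const.mul ((continuousAt_const.mul ((c1.div_const 24).add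
        (continuousAt_const.mul c2))).mul continuousAt_const)
    have h := hc.tendsto
    simp only [sub_self, abs_zero, zero_div, mul_zero, add_zero, zero_mul] at h
    exact h.mono_left nhdsWithin_le_nhds
  unfold ContinuousWithinAt
  rw [tendsto_iff_norm_sub_tendsto_zero]
  refine squeeze_zero' (Eventually.of_forall fun θ => norm_nonneg _) ?_ hlim
  filter_upwards [self_mem_nhdsWithin] with θ hθ
  exact hb θ hθ

end Pool.Agent.Helper79.TH
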